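import Mathlib
import Pool.Agent.Helper43.Gx.Goals

/-!
X4: the landing of the exact filling.
-/

set_option autoImplicit false

namespace Pool.Agent.Helper43.Gx.PkX4

open Finset Pool.Agent.Lead.Sh
open Pool.Agent.Helper43.Gm (st mv nn SS Run Pri)
open Pool.Agent.Helper43.Ah (pat Good)

/-- what a drop `a` at level `v` gives to the last `w` rows -/
def ct (a v w : ℕ) : ℕ := if w ≤ v then a - (v - w) else 0

lemma cum (μ j a : ℕ) (h : j + a < μ) : ∀ w ≤ μ,
    2 * ∑ t ∈ range w, pat μ μ j a (μ - 1 - t) = w * (w + 1) + 2 * (w * min j (μ - w)) +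
      2 * ct a (μ - 1 - j) w := by
  intro w
  induction w with
  | zero =>
    intro _
    simp only [range_zero, sum_empty, ct]
    rw [if_pos (Nat.zero_le _)]
    omega
  | succ w ih =>
    intro hw
    have h1 := ih (by omega)
    rw [sum_range_succ, mul_add, h1]
    obtain ⟨k, hk⟩ : ∃ k, μ = w + 1 + k := ⟨μ - (w+1), by omega⟩
    subst hk
    have e1 : w + 1 + k - 1 - w = k := by omega
    have e2 : w + 1 + k - (w + 1) = k := by omega
    have e3 : w + 1 + k - w = k + 1 := by omega
    rw [e1, e2, e3]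
    unfold pat ct
    rcases lt_trichotomy k j with hkj | hkj | hkj
    · rw [if_pos hkj, min_eq_right (by omega), min_eq_right (by omega), if_neg (by omega),
        if_neg (by omega)]
      have : w + 1 + k + 1 + k - (w+1+k) = k + 1 := by omega
      rw [this]
      ring
    · subst hkj
      rw [if_neg (lt_irrefl _), if_pos rfl, min_eq_left (by omega), min_eq_left (by omega),
        if_pos (by omega), if_neg (by omega)]
      have e4 : w + 1 + k - 1 - k - w = 0 := by omega
      rw [e4]
      have e5 : w * (w + 1) + 2 * (w * k) + 2 * (a - 0) + 2 * (w + 1 + k - a) =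
        w * (w + 1) + 2 * (w * k) + 2 * (w + 1 + k) := by omega
      rw [e5]
      ring
    · rw [if_neg (show ¬ k < j by omega), if_neg (show ¬ k = j by omega),
        min_eq_left (by omega), min_eq_left (by omega),
        if_pos (show w ≤ w + 1 + k - 1 - j by omega),
        if_pos (show w + 1 ≤ w + 1 + k - 1 - j by omega)]
      have e6 : (w + 1) * (w + 1 + 1) = w * (w + 1) + 2 * (w + 1) := by ring
      have e7 : (w + 1) * j = w * j + j := by ring
      rw [e6, e7]
      split_ifs with h5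
      · omega
      · omega

lemma enum (X : ℕ → ℕ) (m : ℕ) : ∃ V Q : ℕ → ℕ,
    (∀ c < ∑ v ∈ range m, X v, V c < m ∧ Q c < X (V c)) ∧
    ∀ F : ℕ → ℕ → ℤ, ∑ c ∈ range (∑ v ∈ range m, X v), F (V c) (Q c) =
      ∑ v ∈ range m, ∑ q ∈ range (X v), F v q := by
  induction m with
  | zero => exact ⟨fun _ => 0, fun _ => 0, by simp, by simp⟩
  | succ m ih =>
    obtain ⟨V, Q, h1, h2⟩ := ih
    refine ⟨fun c => if c < ∑ v ∈ range m, X v then V c else m,
      fun c => if c < ∑ v ∈ range m, X v then Q c else c - ∑ v ∈ range m, X v, ?_, ?_⟩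
    · intro c hc
      rw [sum_range_succ] at hc
      by_cases h3 : c < ∑ v ∈ range m, X v
      · simp only [if_pos h3]
        exact ⟨(h1 c h3).1.trans (Nat.lt_succ_self _), (h1 c h3).2⟩
      · simp only [if_neg h3]
        exact ⟨Nat.lt_succ_self _, by omega⟩
    · intro F
      rw [sum_range_succ, sum_range_add, sum_range_succ, ← h2 F]
      congr 1
      · apply sum_congr rfl
        intro c hc
        rw [mem_range] at hc
        simp only [if_pos hc]
      · apply sum_congr rfl
        intro c hc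
        simp only [if_neg (show ¬ (∑ x ∈ range m, X x) + c < ∑ v ∈ range m, X v by omega),
          Nat.add_sub_cancel_left]

lemma abel (d : ℕ → ℤ) (h0 : d 0 = 0) (w : ℕ) (μ : ℕ) (h : w ≤ μ) :
    ∑ v ∈ range μ, (d (v + 1) - d v) * ((min (μ - 1 - v) (μ - w) : ℕ) : ℤ) =
      ∑ v ∈ Ico w μ, d v := by
  induction μ, h using Nat.le_induction with
  | base => simp
  | succ μ h ih =>
    rw [sum_Ico_succ_top h, ← ih, sum_range_succ]
    have e1 : μ + 1 - 1 - μ = 0 := by omega
    rw [e1, Nat.zero_min, Nat.cast_zero, mul_zero, add_zero]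
    have e2 : ∀ v ∈ range μ, (d (v + 1) - d v) * ((min (μ + 1 - 1 - v) (μ + 1 - w) : ℕ) : ℤ) =
        (d (v + 1) - d v) * ((min (μ - 1 - v) (μ - w) : ℕ) : ℤ) + (d (v + 1) - d v) := by
      intro v hv
      rw [mem_range] at hv
      have e3 : min (μ + 1 - 1 - v) (μ + 1 - w) = min (μ - 1 - v) (μ - w) + 1 := by omega
      rw [e3]
      push_cast
      ring
    rw [sum_congr rfl e2, sum_add_distrib, sum_range_sub, h0, sub_zero]

lemma tele (T : ℕ → ℤ) (w μ : ℕ) (h : w ≤ μ) : ∑ v ∈ Ico w μ, (T v - T (v + 1)) = T w - T μ := by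
  induction μ, h using Nat.le_induction with
  | base => simp
  | succ μ h ih => rw [sum_Ico_succ_top h, ih]; ring

/-- the drops of the two special points of level `v`, seen from `w` -/
def hv (z : ℕ → ℕ) (v w : ℕ) : ℤ := ((ct (z v / 2) v w + ct (z v - z v / 2) v w : ℕ) : ℤ)

/-- the total -/
def HH (z : ℕ → ℕ) (μ w : ℕ) : ℤ := ∑ v ∈ range μ, hv z v w

lemma HH_nonneg (z : ℕ → ℕ) (μ w : ℕ) : 0 ≤ HH z μ w :=
  sum_nonneg fun _ _ => Int.natCast_nonneg _

lemma exists_z (G : ℕ → ℤ) (μ : ℕ) : ∀ m ≤ μ, ∃ z : ℕ → ℕ, z 0 = 0 ∧ ∀ v, μ ≤ v + m → v < μ →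
    1 ≤ v → z v < v ∧ (v : ℤ) ∣ G v - HH z μ v := by
  intro m
  induction m with
  | zero => exact fun _ => ⟨fun _ => 0, rfl, fun v h1 h2 => by omega⟩
  | succ m ih =>
    intro hm
    obtain ⟨z, hz0, hz⟩ := ih (by omega)
    obtain ⟨v0, hv0⟩ : ∃ v0, μ = v0 + (m + 1) := ⟨μ - (m + 1), by omega⟩
    by_cases h0 : v0 = 0
    · refine ⟨z, hz0, fun v h1 h2 h3 => hz v (by omega) h2 h3⟩
    · have hv1 : 1 ≤ v0 := by omega
      set z0 : ℕ → ℕ := fun v => if v = v0 then 0 else z v with hz0d
      set r : ℤ := (G v0 - HH z0 μ v0) % (v0 : ℤ) with hr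
      have hr0 : 0 ≤ r := Int.emod_nonneg _ (by omega)
      have hr1 : r < v0 := Int.emod_lt_of_pos _ (by omega)
      set z' : ℕ → ℕ := fun v => if v = v0 then r.toNat else z v with hz'
      refine ⟨z', ?_, ?_⟩
      · simp only [hz']
        rw [if_neg (by omega)]
        exact hz0
      intro v h1 h2 h3
      by_cases hvv : v = v0
      · subst hvv
        have e1 : z' v = r.toNat := by simp [hz']
        refine ⟨by rw [e1]; omega, ?_⟩
        have e2 : HH z' μ v = HH z0 μ v + r := by
          unfold HH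
          have e3 : ∀ x ∈ range μ, hv z' x v = hv z0 x v + if x = v then r else 0 := by
            intro x _
            by_cases hx : x = v
            · subst hx
              simp only [hv, hz', hz0d, if_true, ct, le_refl, Nat.sub_self]
              omega
            · simp only [hv, hz', hz0d, if_neg hx, add_zero]
          rw [sum_congr rfl e3, sum_add_distrib, sum_ite_eq', if_pos (mem_range.2 h2)]
        rw [e2, hr]
        have := Int.emod_add_mul_ediv (G v - HH z0 μ v) (v : ℤ)
        exact ⟨(G v - HH z0 μ v) / (v : ℤ), by linarith⟩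
      · have e1 : z' v = z v := by simp [hz', hvv]
        obtain ⟨h4, h5⟩ := hz v (by omega) h2 h3
        refine ⟨by rw [e1]; exact h4, ?_⟩
        have e2 : HH z' μ v = HH z μ v := by
          unfold HH
          apply sum_congr rfl
          intro x _
          by_cases hx : x = v0
          · subst hx
            simp only [hv, ct]
            rw [if_neg (by omega), if_neg (by omega), if_neg (by omega), if_neg (by omega)]
          · simp only [hv, hz', if_neg hx]
        rw [e2]
        exact h5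

section bounds

variable {z : ℕ → ℕ} {μ : ℕ}

lemma HH_sd (w : ℕ) (hw : 1 ≤ w) (hμ : w < μ) :
    2 * HH z μ w - HH z μ (w + 1) - HH z μ (w - 1) ≤ z w + 2 := by
  unfold HH
  rw [mul_sum, ← sum_sub_distrib, ← sum_sub_distrib]
  have h1 : ∑ x ∈ range μ, (if x = w then ((z w : ℤ) + 2) else 0) = z w + 2 := by
    rw [sum_ite_eq', if_pos (mem_range.2 hμ)]
  rw [← h1]
  apply sum_le_sum
  intro v _
  by_cases hvw : v = w
  · subst hvw
    rw [if_pos rfl]
    simp only [hv, ct]
    rw [if_pos le_rfl, if_pos le_rfl, if_neg (by omega), if_neg (by omega), if_pos (by omega),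
      if_pos (by omega)]
    push_cast
    omega
  · rw [if_neg hvw]
    simp only [hv, ct]
    split_ifs <;> push_cast <;> omega

lemma HH_diff (hz : ∀ v, 1 ≤ v → v < μ → z v < v) (w : ℕ) (hw : 1 ≤ w) :
    HH z μ (w + 1) - HH z μ (w - 1) ≤ 4 * (w + 1) := by
  unfold HH
  rw [← sum_sub_distrib]
  have h1 : ∑ x ∈ range μ, (if (w + 1 ≤ x ∧ x ≤ 2 * w + 1) then (4 : ℤ) else 0) ≤ 4 * (w + 1) := by
    rw [← sum_filter, sum_const, nsmul_eq_mul]
    have h2 : ((range μ).filter (fun x => w + 1 ≤ x ∧ x ≤ 2 * w + 1)).card ≤ w + 1 := by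
      have h3 : (range μ).filter (fun x => w + 1 ≤ x ∧ x ≤ 2 * w + 1) ⊆ Icc (w + 1) (2 * w + 1) := by
        intro x hx
        rw [mem_filter] at hx
        rw [mem_Icc]
        exact hx.2
      have h4 := card_le_card h3
      rw [Nat.card_Icc] at h4
      omega
    have h5 : ((((range μ).filter (fun x => w + 1 ≤ x ∧ x ≤ 2 * w + 1)).card : ℕ) : ℤ) ≤ w + 1 := by
      exact_mod_cast h2
    linarith
  refine le_trans (sum_le_sum ?_) h1
  intro v hvμ
  rw [mem_range] at hvμ
  have h2 : 1 ≤ v → z v < v := fun h => hz v h hvμ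
  simp only [hv, ct]
  split_ifs <;> push_cast <;> omega

lemma HH_one (hz : ∀ v, 1 ≤ v → v < μ → z v < v) : HH z μ 1 = 0 := by
  unfold HH
  apply sum_eq_zero
  intro v hvμ
  rw [mem_range] at hvμ
  have h2 : 1 ≤ v → z v < v := fun h => hz v h hvμ
  simp only [hv, ct]
  split_ifs <;> push_cast <;> omega

lemma HH_top : HH z μ μ = 0 := by
  unfold HH
  apply sum_eq_zero
  intro v hvμ
  rw [mem_range] at hvμ
  simp only [hv, ct]
  rw [if_neg (by omega), if_neg (by omega)]
  rfl

end bounds

theorem goalX4 : GoalX4 := by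
  intro μ n g hμ hgμ htot hHop hg01
  -- the cumulated excess
  set G : ℕ → ℤ := fun w => ∑ t ∈ range w, (g t - n * ((t : ℤ) + 1)) with hGd
  have hGs : ∀ w, G (w + 1) = G w + g w - n * (w + 1) := by
    intro w
    simp only [hGd]
    rw [sum_range_succ]
    ring
  have hG2 : ∀ w : ℕ, 2 * ∑ t ∈ range w, g t = 2 * G w + n * w * (w + 1) := by
    intro w
    induction w with
    | zero => simp [hGd]
    | succ w ih =>
      rw [sum_range_succ, mul_add, ih, hGs w]
      push_cast
      ring
  have hGμ : G μ = 0 := by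
    have := hG2 μ
    linarith
  obtain ⟨z, hz0, hz⟩ := exists_z G μ μ le_rfl
  have hzlt : ∀ v, 1 ≤ v → v < μ → z v < v := fun v h1 h2 => (hz v (by omega) h2 h1).1
  have hdvd : ∀ w : ℕ, 1 ≤ w → w ≤ μ → (w : ℤ) ∣ G w - HH z μ w := by
    intro w h1 h2
    rcases Nat.lt_or_ge w μ with h3 | h3
    · exact (hz w (by omega) h3 h1).2
    · obtain rfl : w = μ := by omega
      rw [hGμ, HH_top]
      simp
  set T : ℕ → ℤ := fun w => if w ≤ μ then (G w - HH z μ w) / w else - n with hT
  have hTw : ∀ w : ℕ, 1 ≤ w → w ≤ μ → (w : ℤ) * T w = G w - HH z μ w := by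
    intro w h1 h2
    simp only [hT, if_pos h2]
    exact Int.mul_ediv_cancel' (hdvd w h1 h2)
  have hTμ : T μ = 0 := by
    have := hTw μ hμ le_rfl
    rw [hGμ, HH_top] at this
    have h2 : (μ : ℤ) ≠ 0 := by omega
    have h3 : (μ : ℤ) * T μ = 0 := by rw [this]; ring
    exact (mul_eq_zero.1 h3).resolve_left h2
  have hTμ1 : T (μ + 1) = - n := by
    simp only [hT]
    rw [if_neg (by omega)]
  set d : ℕ → ℤ := fun w => if w = 0 then 0 else T w - T (w + 1) with hd
  have hd0 : d 0 = 0 := by simp [hd]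
  have hd1 : ∀ w, 1 ≤ w → d w = T w - T (w + 1) := by
    intro w hw
    simp only [hd]
    rw [if_neg (by omega)]
  have hdμ : d μ = n := by
    rw [hd1 μ hμ, hTμ, hTμ1]
    ring
  -- the numbers of points
  have hX2 : ∀ v, 1 ≤ v → v < μ → 2 ≤ d (v + 1) - d v := by
    intro u hu1 hu2
    rw [hd1 (u + 1) (by omega), hd1 u hu1]
    have hop := hHop (u + 1) (by omega) (by omega)
    unfold Hop at hop
    rw [Nat.add_sub_cancel, hG2 (u + 1)] at hop
    have hTu := hTw u hu1 (by omega)
    have hTu1 := hTw (u + 1) (by omega) (by omega)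
    have hH0 := HH_nonneg z μ u
    have g1 := hGs u
    have g2 := hGs (u + 1)
    push_cast at hop hTu1 g2
    have hu0 : (1 : ℤ) ≤ u := by exact_mod_cast hu1
    rcases Nat.lt_or_ge (u + 1) μ with h3 | h3
    · have hTu2 := hTw (u + 1 + 1) (by omega) (by omega)
      have b1 := HH_sd (z := z) (u + 1) (by omega) h3
      have b2 := HH_diff hzlt (u + 1) (by omega)
      have b3 : (z (u + 1) : ℤ) ≤ u := by
        have := hzlt (u + 1) (by omega) h3
        omega
      rw [Nat.add_sub_cancel] at b1 b2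
      push_cast at hTu2 b2
      obtain ⟨U, hU⟩ : ∃ U : ℤ, U = u := ⟨_, rfl⟩
      rw [← hU] at hop hTu1 g2 hu0 hTu2 b2 b3 hTu g1
      clear_value T d G
      obtain ⟨H0, hH0'⟩ : ∃ x, x = HH z μ u := ⟨_, rfl⟩
      obtain ⟨H1, hH1'⟩ : ∃ x, x = HH z μ (u + 1) := ⟨_, rfl⟩
      obtain ⟨H2, hH2'⟩ : ∃ x, x = HH z μ (u + 1 + 1) := ⟨_, rfl⟩
      rw [← hH0'] at hH0 hTu b1 b2
      rw [← hH1'] at hTu1 b1
      rw [← hH2'] at hTu2 b1 b2
      have key : U * (U + 1) * (U + 2) * (T (u + 1) - T (u + 1 + 1) - (T u - T (u + 1))) =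
          -(2 * G (u + 1) + n * (U + 1) * (U + 1 + 1) - (U + 1) * (U + 1 + 1) * g u +
            (U + 1) * (U + 1 - 1) * g (u + 1)) -
          ((U * (U + 2)) * (2 * H1 - H2 - H0) + U * H2 - (U + 2) * H0) := by
        linear_combination (2 * (U * (U + 2))) * hTu1 - (U + 1) * U * hTu2 -
          (U + 1) * (U + 2) * hTu + (U + 1) * U * (-g2) - (U + 1) * (U + 2) * (-g1)
      have c1 : U * (U + 2) * (2 * H1 - H2 - H0) ≤ U * (U + 2) * (U + 2) := by
        refine mul_le_mul_of_nonneg_left ?_ (by positivity)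
        linarith
      have c2 : U * (H2 - H0) ≤ U * (4 * (U + 1 + 1)) := mul_le_mul_of_nonneg_left b2 (by linarith)
      have c3 : U * (U + 1) * (U + 2) * 2 ≤
          U * (U + 1) * (U + 2) * (T (u + 1) - T (u + 1 + 1) - (T u - T (u + 1))) := by
        rw [key]
        nlinarith [mul_nonneg (mul_nonneg (by linarith : (0 : ℤ) ≤ U) (by linarith : (0 : ℤ) ≤ U + 2))
          (by linarith : (0 : ℤ) ≤ 3 * U - 3)]
      exact le_of_mul_le_mul_left c3 (by positivity)
    · have e1 : u + 1 = μ := by omega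
      rw [e1] at hop hTu1 g1 g2 ⊢
      rw [hTμ, hTμ1]
      rw [hGμ] at hop g1
      rw [hgμ] at hop
      obtain ⟨U, hU⟩ : ∃ U : ℤ, U = u := ⟨_, rfl⟩
      rw [← hU] at hop hu0 hTu g1
      have c1 : (U + 1) * (U + 1 + 1) * (6 * U) ≤ (U + 1) * (U + 1 + 1) * (g u - n) := by
        linarith
      have c2 : 6 * U ≤ g u - n := le_of_mul_le_mul_left c1 (by positivity)
      have c3 : U * 2 ≤ U * (0 - -(n : ℤ) - (T u - 0)) := by
        nlinarith
      exact le_of_mul_le_mul_left c3 (by linarith)
  have hX0 : 0 ≤ d (0 + 1) - d 0 := by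
    rw [hd0, hd1 (0 + 1) (by omega)]
    rcases Nat.lt_or_ge 1 μ with h3 | h3
    · have h4 := hTw 1 le_rfl hμ
      have h5 := hTw 2 (by omega) h3
      rw [HH_one hzlt] at h4
      have h6 := HH_nonneg z μ 2
      have g1 := hGs 0
      have g2 := hGs 1
      have g0 : G 0 = 0 := by simp [hGd]
      have h7 := hg01 h3
      push_cast at h4 h5 g1 g2
      simp only [zero_add] at g1 h4 ⊢
      rw [show (1 : ℕ) + 1 = 2 from rfl] at *
      linarith
    · have e1 : μ = 1 := by omega
      subst e1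
      rw [zero_add, hTμ, hTμ1]
      simp
  set X : ℕ → ℕ := fun v => (d (v + 1) - d v).toNat with hX
  have hXz : ∀ v, v < μ → (X v : ℤ) = d (v + 1) - d v := by
    intro v hvμ
    simp only [hX]
    refine Int.toNat_of_nonneg ?_
    rcases Nat.eq_zero_or_pos v with h | h
    · rw [h]; exact hX0
    · have := hX2 v h hvμ
      linarith
  have hXsum : ∑ v ∈ range μ, X v = n := by
    have : ((∑ v ∈ range μ, X v : ℕ) : ℤ) = n := by
      push_cast
      rw [sum_congr rfl fun v hv => hXz v (mem_range.1 hv), sum_range_sub, hd0, hdμ]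
      ring
    exact_mod_cast this
  obtain ⟨V, Q, hVQ, hsum⟩ := enum X μ
  rw [hXsum] at hVQ hsum
  set e : ℕ → ℕ → ℕ := fun v q => if q = 0 then z v / 2 else if q = 1 then z v - z v / 2 else 0
    with he
  have he_le : ∀ v, v < μ → ∀ q, e v q ≤ v := by
    intro v hvμ q
    have h2 : 1 ≤ v → z v < v := fun h => hzlt v h hvμ
    have h3 : v = 0 → z v = 0 := fun h => by rw [h]; exact hz0
    simp only [he]
    split_ifs <;> omega
  refine ⟨fun c => μ - 1 - V c, fun c => e (V c) (Q c), ?_, ?_⟩
  · intro c hc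
    have h1 := (hVQ c hc).1
    have h2 := he_le (V c) h1 (Q c)
    show μ - 1 - V c + e (V c) (Q c) < μ
    omega
  -- the cumulated sums
  have hcum : ∀ w, w ≤ μ → ∑ t ∈ range w, ∑ c ∈ range n,
      (pat μ μ (μ - 1 - V c) (e (V c) (Q c)) (μ - 1 - t) : ℤ) = ∑ t ∈ range w, g t := by
    intro w hw
    rcases Nat.eq_zero_or_pos w with h0 | h0
    · subst h0; simp
    rw [sum_comm]
    rw [hsum (fun v q => ∑ t ∈ range w, (pat μ μ (μ - 1 - v) (e v q) (μ - 1 - t) : ℤ))]
    have h1 : ∀ v ∈ range μ, 2 * ∑ q ∈ range (X v), ∑ t ∈ range w,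
        (pat μ μ (μ - 1 - v) (e v q) (μ - 1 - t) : ℤ) =
        (d (v + 1) - d v) * (w * (w + 1)) + 2 * w * ((d (v + 1) - d v) *
          ((min (μ - 1 - v) (μ - w) : ℕ) : ℤ)) + 2 * hv z v w := by
      intro v hvμ
      rw [mem_range] at hvμ
      rw [mul_sum]
      have h2 : ∀ q ∈ range (X v), 2 * ∑ t ∈ range w,
        (pat μ μ (μ - 1 - v) (e v q) (μ - 1 - t) : ℤ) =
          ((w : ℤ) * (w + 1) + 2 * (w * ((min (μ - 1 - v) (μ - w) : ℕ) : ℤ))) +
            2 * (ct (e v q) v w : ℤ) := by
        intro q _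
        have h3 := he_le v hvμ q
        have h4 := cum μ (μ - 1 - v) (e v q) (by omega) w hw
        rw [show μ - 1 - (μ - 1 - v) = v by omega] at h4
        exact_mod_cast h4
      rw [sum_congr rfl h2, sum_add_distrib, sum_const, card_range, nsmul_eq_mul, hXz v hvμ,
        ← mul_sum]
      have h5 : ∑ q ∈ range (X v), (ct (e v q) v w : ℤ) = hv z v w := by
        have ct0 : ct 0 v w = 0 := by
          unfold ct
          split_ifs
          · omega
          · rfl
        rcases Nat.eq_zero_or_pos v with h6 | h6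
        · have h7 : hv z v w = 0 := by
            simp only [hv, ct]
            rw [if_neg (by omega), if_neg (by omega)]
            rfl
          rw [h7]
          apply sum_eq_zero
          intro q _
          unfold ct
          rw [if_neg (by omega)]
          rfl
        · have h7 := hX2 v h6 hvμ
          rw [← hXz v hvμ] at h7
          obtain ⟨x, hx⟩ : ∃ x, X v = x + 2 := ⟨X v - 2, by omega⟩
          rw [hx, sum_range_succ', sum_range_succ']
          have h8 : ∑ q ∈ range x, (ct (e v (q + 1 + 1)) v w : ℤ) = 0 := by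
            apply sum_eq_zero
            intro q _
            have : e v (q + 1 + 1) = 0 := by
              simp only [he]
              rw [if_neg (by omega), if_neg (by omega)]
            rw [this, ct0]
            rfl
          rw [h8]
          have e0 : e v 0 = z v / 2 := by simp [he]
          have e1 : e v (0 + 1) = z v - z v / 2 := by simp [he]
          rw [e0, e1]
          unfold hv
          push_cast
          ring
      rw [h5]
      ring
    have h2 : 2 * ∑ v ∈ range μ, ∑ q ∈ range (X v), ∑ t ∈ range w,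
        (pat μ μ (μ - 1 - v) (e v q) (μ - 1 - t) : ℤ) = 2 * ∑ t ∈ range w, g t := by
      rw [mul_sum, sum_congr rfl h1, sum_add_distrib, sum_add_distrib, ← sum_mul, ← mul_sum,
        ← mul_sum, sum_range_sub, hd0, hdμ, abel d hd0 w μ hw]
      have h3 : ∑ v ∈ Ico w μ, d v = T w := by
        have h4 : ∑ v ∈ Ico w μ, d v = ∑ v ∈ Ico w μ, (T v - T (v + 1)) := by
          apply sum_congr rfl
          intro v hv
          rw [mem_Ico] at hv
          exact hd1 v (by omega)
        rw [h4, tele T w μ hw, hTμ, sub_zero]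
      rw [h3, hG2 w]
      have h5 := hTw w h0 hw
      have h6 : ∑ v ∈ range μ, hv z v w = HH z μ w := rfl
      rw [h6]
      linarith
    linarith
  intro k hk
  have h1 := hcum (μ - 1 - k) (by omega)
  have h2 := hcum (μ - 1 - k + 1) (by omega)
  rw [sum_range_succ, sum_range_succ, h1] at h2
  rw [show μ - 1 - (μ - 1 - k) = k by omega] at h2
  linarith

end Pool.Agent.Helper43.Gx.PkX4
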